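import Pool.Agent.P8H70.TR.Stm

/-!
# Project TR, package LEV
-/

set_option autoImplicit false

open Complex MeasureTheory Finset ComplexConjugate

namespace Pool.Agent.P8H87.TR

open Pool.Agent.P8H70.TR

lemma young {x y lam be de ka p : ℝ} (hx : 0 ≤ x) (hy : 0 ≤ y) (hl : 0 < lam) (hb : 0 < be)
    (hd : 0 < de) (hk : 0 < ka) (hp : 0 < p) :
    x * y ≤ lam * (y ^ 4 / (4 * ka ^ 3) + 3 * ka / 4) + be / 2 * x ^ 2 + de / (4 * be) * y ^ 4 +
      1 / (4 * be * de) * (x ^ p / lam ^ p) := by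
  have hxp : 0 ≤ x ^ p := Real.rpow_nonneg hx p
  have hlp : 0 < lam ^ p := Real.rpow_pos_of_pos hl p
  rcases le_or_gt x lam with h | h
  · have h1 : y ≤ y ^ 4 / (4 * ka ^ 3) + 3 * ka / 4 := by
      have e : y ^ 4 / (4 * ka ^ 3) + 3 * ka / 4 = (y ^ 4 + 3 * ka ^ 4) / (4 * ka ^ 3) := by
        field_simp
      rw [e, le_div_iff₀ (by positivity)]
      have h2 : y ^ 4 + 3 * ka ^ 4 - y * (4 * ka ^ 3) =
          (y - ka) ^ 2 * (y ^ 2 + 2 * y * ka + 3 * ka ^ 2) := by ring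
      have h3 : 0 ≤ (y - ka) ^ 2 * (y ^ 2 + 2 * y * ka + 3 * ka ^ 2) := by positivity
      linarith
    have h2 : x * y ≤ lam * (y ^ 4 / (4 * ka ^ 3) + 3 * ka / 4) :=
      (mul_le_mul_of_nonneg_right h hy).trans (mul_le_mul_of_nonneg_left h1 hl.le)
    have h3 : 0 ≤ be / 2 * x ^ 2 := by positivity
    have h4 : 0 ≤ de / (4 * be) * y ^ 4 := by positivity
    have h5 : 0 ≤ 1 / (4 * be * de) * (x ^ p / lam ^ p) := by positivity
    linarith
  · have h1 : x * y ≤ be / 2 * x ^ 2 + y ^ 2 / (2 * be) := by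
      have e : be / 2 * x ^ 2 + y ^ 2 / (2 * be) = (be ^ 2 * x ^ 2 + y ^ 2) / (2 * be) := by
        field_simp
      rw [e, le_div_iff₀ (by positivity)]
      nlinarith [sq_nonneg (be * x - y)]
    have h2 : y ^ 2 / (2 * be) ≤ de / (4 * be) * y ^ 4 + 1 / (4 * be * de) := by
      have e : de / (4 * be) * y ^ 4 + 1 / (4 * be * de) =
          (de ^ 2 * y ^ 4 + 1) / (2 * de) / (2 * be) := by
        field_simp
        norm_num
      rw [e]
      apply div_le_div_of_nonneg_right _ (by positivity)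
      rw [le_div_iff₀ (by positivity)]
      nlinarith [sq_nonneg (de * y ^ 2 - 1)]
    have h3 : 1 ≤ x ^ p / lam ^ p := by
      rw [one_le_div hlp]
      exact Real.rpow_le_rpow hl.le h.le hp.le
    have h4 : 1 / (4 * be * de) ≤ 1 / (4 * be * de) * (x ^ p / lam ^ p) :=
      le_mul_of_one_le_right (by positivity) h3
    have h5 : 0 ≤ lam * (y ^ 4 / (4 * ka ^ 3) + 3 * ka / 4) := by positivity
    linarith

theorem lev : S_LEV := by
  intro Ω _ _ G T p τ n hp hτ hn hG hT hG2 hT4 hmain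
  have hπ := Real.pi_pos
  have h2π : (0 : ℝ) ≤ 2 * Real.pi := by positivity
  have hn0 : (0 : ℝ) < n := by exact_mod_cast hn
  obtain ⟨m, hm⟩ : ∃ m : ℝ, m = Fintype.card Ω := ⟨_, rfl⟩
  have hm0 : 0 < m := by
    rw [hm]
    exact_mod_cast Fintype.card_pos
  rw [← hm] at hT4 hmain
  obtain ⟨r, hr⟩ : ∃ r : ℝ, r = Real.sqrt n := ⟨_, rfl⟩
  have hr0 : 0 < r := by
    rw [hr]
    exact Real.sqrt_pos.2 hn0
  have hrn : r ^ 2 = n := by
    rw [hr]
    exact Real.sq_sqrt hn0.le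
  rw [← hr] at hmain ⊢
  obtain ⟨A, hA⟩ : ∃ A : ℝ, A = τ * (n * r) := ⟨_, rfl⟩
  have hA0 : 0 < A := by rw [hA]; positivity
  rw [← hA] at hmain
  obtain ⟨lam, hlam⟩ : ∃ lam : ℝ, lam = A / (14 * Real.pi * n) := ⟨_, rfl⟩
  obtain ⟨be, hbe⟩ : ∃ be : ℝ, be = A / (8 * Real.pi * n) := ⟨_, rfl⟩
  obtain ⟨de, hde⟩ : ∃ de : ℝ, de = be * A / (8 * Real.pi * n ^ 4) := ⟨_, rfl⟩
  have hlam0 : 0 < lam := by rw [hlam]; positivity
  have hbe0 : 0 < be := by rw [hbe]; positivity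
  have hde0 : 0 < de := by rw [hde]; positivity
  have hlp : 0 < lam ^ p := Real.rpow_pos_of_pos hlam0 p
  have c1 : ∀ ω, Continuous fun t => ‖G ω t‖ := fun ω => (hG ω).norm
  have c2 : ∀ ω, Continuous fun t => ‖T ω t‖ := fun ω => (hT ω).norm
  have c3 : ∀ ω, Continuous fun t => ‖G ω t‖ ^ p := fun ω =>
    (c1 ω).rpow_const fun _ => Or.inr hp.le
  have hper : ∀ ω, ∫ t in (0 : ℝ)..(2 * Real.pi), ‖G ω t‖ * ‖T ω t‖ ≤
      (lam / (4 * (n : ℝ) ^ 3) + de / (4 * be)) *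
        (∫ t in (0 : ℝ)..(2 * Real.pi), ‖T ω t‖ ^ 4) + lam * (3 * n / 4) * (2 * Real.pi) +
      be / 2 * (∫ t in (0 : ℝ)..(2 * Real.pi), ‖G ω t‖ ^ 2) +
      1 / (4 * be * de) / lam ^ p * ∫ t in (0 : ℝ)..(2 * Real.pi), ‖G ω t‖ ^ p := by
    intro ω
    have i1 : IntervalIntegrable (fun t => (lam / (4 * (n : ℝ) ^ 3) + de / (4 * be)) *
        ‖T ω t‖ ^ 4) volume 0 (2 * Real.pi) :=
      (continuous_const.mul ((c2 ω).pow 4)).intervalIntegrable _ _
    have i2 : IntervalIntegrable (fun _ : ℝ => lam * (3 * (n : ℝ) / 4)) volume 0 (2 * Real.pi) :=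
      continuous_const.intervalIntegrable _ _
    have i3 : IntervalIntegrable (fun t => be / 2 * ‖G ω t‖ ^ 2) volume 0 (2 * Real.pi) :=
      (continuous_const.mul ((c1 ω).pow 2)).intervalIntegrable _ _
    have i4 : IntervalIntegrable (fun t => 1 / (4 * be * de) / lam ^ p * ‖G ω t‖ ^ p) volume 0
        (2 * Real.pi) := (continuous_const.mul (c3 ω)).intervalIntegrable _ _
    have h1 : ∫ t in (0 : ℝ)..(2 * Real.pi), ‖G ω t‖ * ‖T ω t‖ ≤
        ∫ t in (0 : ℝ)..(2 * Real.pi), ((lam / (4 * (n : ℝ) ^ 3) + de / (4 * be)) *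
        ‖T ω t‖ ^ 4 + lam * (3 * (n : ℝ) / 4) + be / 2 * ‖G ω t‖ ^ 2 +
        1 / (4 * be * de) / lam ^ p * ‖G ω t‖ ^ p) := by
      refine intervalIntegral.integral_mono_on h2π
        (((c1 ω).mul (c2 ω)).intervalIntegrable _ _) (((i1.add i2).add i3).add i4) fun t _ => ?_
      have h2 := young (norm_nonneg (G ω t)) (norm_nonneg (T ω t)) hlam0 hbe0 hde0 hn0 hp
      refine h2.trans (le_of_eq ?_)
      ring
    refine h1.trans (le_of_eq ?_)
    rw [intervalIntegral.integral_add ((i1.add i2).add i3) i4,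
      intervalIntegral.integral_add (i1.add i2) i3, intervalIntegral.integral_add i1 i2]
    simp only [intervalIntegral.integral_const_mul, intervalIntegral.integral_const, smul_eq_mul]
    ring
  have hsum : ‖∑ ω, ∫ t in (0 : ℝ)..(2 * Real.pi), G ω t * conj (T ω t)‖ ≤
      ∑ ω, ∫ t in (0 : ℝ)..(2 * Real.pi), ‖G ω t‖ * ‖T ω t‖ := by
    refine (norm_sum_le _ _).trans (sum_le_sum fun ω _ => ?_)
    refine (intervalIntegral.norm_integral_le_integral_norm h2π).trans (le_of_eq ?_)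
    refine intervalIntegral.integral_congr fun t _ => ?_
    rw [norm_mul, RCLike.norm_conj]
  obtain ⟨c, hc⟩ : ∃ c : Ω → ℝ, ∀ ω, c ω = ∫ t in (0 : ℝ)..(2 * Real.pi), ‖G ω t‖ ^ p :=
    ⟨_, fun _ => rfl⟩
  obtain ⟨a, ha⟩ : ∃ a : Ω → ℝ, ∀ ω, a ω = ∫ t in (0 : ℝ)..(2 * Real.pi), ‖G ω t‖ ^ 2 :=
    ⟨_, fun _ => rfl⟩
  obtain ⟨b, hb⟩ : ∃ b : Ω → ℝ, ∀ ω, b ω = ∫ t in (0 : ℝ)..(2 * Real.pi), ‖T ω t‖ ^ 4 :=
    ⟨_, fun _ => rfl⟩
  simp only [← hc] at hper ⊢
  simp only [← ha] at hper hG2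
  simp only [← hb] at hper hT4
  have hS : ∑ ω, ∫ t in (0 : ℝ)..(2 * Real.pi), ‖G ω t‖ * ‖T ω t‖ ≤
      (lam / (4 * (n : ℝ) ^ 3) + de / (4 * be)) * ∑ ω, b ω + m * (lam * (3 * n / 4) *
        (2 * Real.pi)) + be / 2 * ∑ ω, a ω + 1 / (4 * be * de) / lam ^ p * ∑ ω, c ω := by
    calc _ ≤ ∑ ω, ((lam / (4 * (n : ℝ) ^ 3) + de / (4 * be)) * b ω + lam * (3 * n / 4) *
        (2 * Real.pi) + be / 2 * a ω + 1 / (4 * be * de) / lam ^ p * c ω) :=
          sum_le_sum fun ω _ => hper ω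
      _ = _ := by
        simp only [sum_add_distrib, ← mul_sum, sum_const, card_univ, nsmul_eq_mul]
        rw [hm]
        ring
  have hsa : ∑ ω, a ω ≤ m * (4 * Real.pi * n) := by
    calc ∑ ω, a ω ≤ ∑ _ω : Ω, 4 * Real.pi * n := sum_le_sum fun ω _ => hG2 ω
      _ = _ := by
        simp only [sum_const, card_univ, nsmul_eq_mul]
        rw [hm]
  by_contra hcon
  push Not at hcon
  have hsc : ∑ ω, c ω < m * (τ ^ 4 / 16000 * (τ * r / 44) ^ p) := by
    calc ∑ ω, c ω < ∑ _ω : Ω, τ ^ 4 / 16000 * (τ * r / 44) ^ p :=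
          sum_lt_sum_of_nonempty univ_nonempty fun ω _ => hcon ω
      _ = _ := by
        simp only [sum_const, card_univ, nsmul_eq_mul]
        rw [hm]
  -- the numerical part
  have e1 : (lam / (4 * (n : ℝ) ^ 3)) * (m * (8 * Real.pi * n ^ 4)) +
      m * (lam * (3 * n / 4) * (2 * Real.pi)) = m * (A / 4) := by
    rw [hlam]
    field_simp
    ring
  have e2 : be / 2 * (m * (4 * Real.pi * n)) = m * (A / 4) := by
    rw [hbe]
    field_simp
    ring
  have e3 : de / (4 * be) * (m * (8 * Real.pi * n ^ 4)) = m * (A / 4) := by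
    rw [hde]
    field_simp
  have f1 : (lam / (4 * (n : ℝ) ^ 3) + de / (4 * be)) * ∑ ω, b ω ≤
      (lam / (4 * (n : ℝ) ^ 3) + de / (4 * be)) * (m * (8 * Real.pi * n ^ 4)) :=
    mul_le_mul_of_nonneg_left hT4 (by positivity)
  have f2 : be / 2 * ∑ ω, a ω ≤ be / 2 * (m * (4 * Real.pi * n)) :=
    mul_le_mul_of_nonneg_left hsa (by positivity)
  have f3 : m * (A / 4) ≤ 1 / (4 * be * de) / lam ^ p * ∑ ω, c ω := by
    have h1 := hmain.trans (hsum.trans hS)
    have h2 : (lam / (4 * (n : ℝ) ^ 3) + de / (4 * be)) * (m * (8 * Real.pi * n ^ 4)) =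
        (lam / (4 * (n : ℝ) ^ 3)) * (m * (8 * Real.pi * n ^ 4)) +
        de / (4 * be) * (m * (8 * Real.pi * n ^ 4)) := by ring
    linarith
  have f4 : m * (A * be * de * lam ^ p) ≤ ∑ ω, c ω := by
    have h1 : m * (A / 4) * (4 * be * de * lam ^ p) ≤
        1 / (4 * be * de) / lam ^ p * (∑ ω, c ω) * (4 * be * de * lam ^ p) :=
      mul_le_mul_of_nonneg_right f3 (by positivity)
    have h2 : 1 / (4 * be * de) / lam ^ p * (∑ ω, c ω) * (4 * be * de * lam ^ p) = ∑ ω, c ω := by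
      field_simp
    rw [h2] at h1
    linarith
  have f5 : τ ^ 4 / 16000 ≤ A * be * de := by
    have h1 : A * be * de = τ ^ 4 / (512 * Real.pi ^ 3) := by
      have h3 : A ^ 4 = τ ^ 4 * (n : ℝ) ^ 6 := by
        rw [hA]
        have : (τ * (n * r)) ^ 4 = τ ^ 4 * (n : ℝ) ^ 4 * (r ^ 2) ^ 2 := by ring
        rw [this, hrn]
        ring
      have h4 : A * be * de = A ^ 4 / (512 * Real.pi ^ 3 * (n : ℝ) ^ 6) := by
        rw [hde, hbe]
        field_simp
        norm_num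
      rw [h4, h3]
      field_simp
    rw [h1]
    apply div_le_div_of_nonneg_left (by positivity) (by positivity)
    have h2 := Real.pi_lt_d4
    have h3 : Real.pi ^ 3 ≤ 3.1416 ^ 3 := pow_le_pow_left₀ hπ.le h2.le 3
    have h4 : (512 : ℝ) * 3.1416 ^ 3 ≤ 16000 := by norm_num
    linarith
  have f6 : (τ * r / 44) ^ p ≤ lam ^ p := by
    apply Real.rpow_le_rpow (by positivity) _ hp.le
    have h1 : lam = τ * r / (14 * Real.pi) := by
      rw [hlam, hA]
      field_simp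
    rw [h1]
    apply div_le_div_of_nonneg_left (by positivity) (by positivity)
    have h2 := Real.pi_lt_d4
    linarith
  have f7 : τ ^ 4 / 16000 * (τ * r / 44) ^ p ≤ A * be * de * lam ^ p :=
    mul_le_mul f5 f6 (Real.rpow_nonneg (by positivity) _) (by positivity)
  have f8 := mul_le_mul_of_nonneg_left f7 hm0.le
  linarith

end Pool.Agent.P8H87.TR
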